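import Pool.Agent.Helper437.CP.Main
import Pool.Agent.H604C.P_nt_main

/-! The automorphism group of every cohesive power of every number field `F` is `Aut F`:
every automorphism of the cohesive power is induced by a unique automorphism of `F`. -/

namespace Pool.Agent.Results.MP_2cb16d_lc.AutCohesive

open Pool.Agent.Helper437.CP

theorem result (F : Type) [Field F] [NumberField F] (P : Pres F) (C : Set ℕ) (hC : Cohesive C) :
    ∃ Φ : RingAut F ≃* RingAut (CohPow P C), ∀ σ : RingAut F,
      ∃ h : Computable fun m : ℕ => P.e (σ (P.e.symm m)),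
        ∀ φ : D C, Φ σ (CohPow.mk P C φ) =
          CohPow.mk P C (φ.map (fun m : ℕ => P.e (σ (P.e.symm m))) h) :=
  main P C (CohNT.nt_main F) hC

end Pool.Agent.Results.MP_2cb16d_lc.AutCohesive
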